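import Pool.Agent.H382P.PosProp

open Filter

namespace Pool.Agent.Results.MP_2f7072_nt.HalfSpacing

/-- multiplicity of `s` as a zero of the Riemann zeta function (order of vanishing at `s`) -/
noncomputable def zmult (s : ℂ) : ℕ := analyticOrderNatAt riemannZeta s

/-- the number of nontrivial zeros of `ζ` with ordinate in `(0, t]`, with multiplicity -/
noncomputable def NZ (t : ℝ) : ℕ :=
  ∑ᶠ s ∈ {s : ℂ | riemannZeta s = 0 ∧ 0 < s.re ∧ s.re < 1 ∧ 0 < s.im ∧ s.im ≤ t}, zmult s

/-- for `n ≥ 1`: the `n`-th positive ordinate `γ n` of a nontrivial zero of `ζ`, the ordinates being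
listed in nondecreasing order and repeated according to multiplicity -/
noncomputable def γ (n : ℕ) : ℝ := sInf {t : ℝ | n ≤ NZ t}

/-- On the Riemann hypothesis, `(γ_{n+1} - γ_n) log γ_n < c` for a positive proportion of the `n`,
for every `c > π`; in particular its lower limit is at most `π`. -/
theorem result (RH : RiemannHypothesis) (c : ℝ) (hc : Real.pi < c) :
    ∃ ε : ℝ, 0 < ε ∧ ∀ᶠ N : ℕ in atTop,
      ε * N ≤ ({n : ℕ | 1 ≤ n ∧ n ≤ N ∧ (γ (n + 1) - γ n) * Real.log (γ n) < c}.ncard : ℝ) := by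
  have hRHs : SP.RHs := by
    intro s h1 h2 h0
    apply RH s h0
    · rintro ⟨k, hk⟩
      have := congrArg Complex.re hk
      simp at this
      have hk0 : (0 : ℝ) ≤ k := Nat.cast_nonneg k
      linarith
    · intro h; rw [h] at h2; simp at h2
  have hpi := Real.pi_pos
  set b : ℝ := (1 / 2 + c / (2 * Real.pi)) / 2 with hb
  have h0 : 1 / 2 < c / (2 * Real.pi) := by
    rw [lt_div_iff₀ (by positivity)]; linarith
  have h1 : 1 / 2 < b := by rw [hb]; linarith
  have h2 : b < c / (2 * Real.pi) := by rw [hb]; linarith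
  apply SP.pos_prop_aux b _ (SP.pos_prop hRHs b h1)
  obtain ⟨T2, hT2⟩ := (tendsto_atTop.mp Real.tendsto_log_atTop
    (2 * Real.pi * b * Real.log 2 / (c - 2 * Real.pi * b))).exists_forall_of_atTop
  refine ⟨max T2 10, fun T hT n hn1 h3 h4 h5 => ?_⟩
  have hT10 : 10 ≤ T := (le_max_right _ _).trans hT
  have h6 := hT2 T ((le_max_left _ _).trans hT)
  have hlogT : 0 < Real.log T := Real.log_pos (by linarith)
  have h7 : SG.ord n ≤ SG.ord (n + 1) := SG.ord_mono hn1 (by omega)
  have h8 : Real.log (SG.ord n) ≤ Real.log T + Real.log 2 := by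
    rw [← Real.log_mul (by linarith) (by norm_num)]
    apply Real.log_le_log (SG.ord_pos hn1)
    linarith
  have h9 : 2 * Real.pi * b < c := by
    rw [lt_div_iff₀ (by positivity)] at h2
    linarith
  rw [div_le_iff₀ (by linarith)] at h6
  change (SG.ord (n + 1) - SG.ord n) * Real.log (SG.ord n) < c
  have h10 : 0 ≤ SG.ord (n + 1) - SG.ord n := by linarith
  have h11 : 0 < Real.log T + Real.log 2 := by
    have : 0 < Real.log 2 := Real.log_pos (by norm_num)
    linarith
  calc (SG.ord (n + 1) - SG.ord n) * Real.log (SG.ord n)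
      ≤ (SG.ord (n + 1) - SG.ord n) * (Real.log T + Real.log 2) := by gcongr
    _ < b * (2 * Real.pi / Real.log T) * (Real.log T + Real.log 2) := by gcongr
    _ = (2 * Real.pi * b * Real.log T + 2 * Real.pi * b * Real.log 2) / Real.log T := by
        field_simp
    _ ≤ c := by
        rw [div_le_iff₀ hlogT]
        nlinarith

end Pool.Agent.Results.MP_2f7072_nt.HalfSpacing
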